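import Pool.Agent.Work.MP_dcf6a6_c1.Interface

/-!
# FSG: the affine cone minus all but one of the coordinate hyperplanes is smooth
-/

open CategoryTheory AlgebraicGeometry MvPolynomial

namespace Pool.C1.helper70

theorem pow_add_sq {Q : Type} [CommRing Q] (x δ : Q) (h : δ * δ = 0) (n : ℕ) :
    (x + δ) ^ (n + 1) = x ^ (n + 1) + ((n + 1 : ℕ) : Q) * x ^ n * δ := by
  induction n with
  | zero => simp
  | succ n ih =>
    rw [pow_succ, ih]
    push_cast
    linear_combination ((n : Q) + 1) * x ^ n * h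

/-- lifting a root of a unit -/
theorem lift_root {Q : Type} [CommRing Q] [Algebra ℂ Q] (𝔞 : Ideal Q) (h𝔞 : 𝔞 ^ 2 = ⊥)
    (x M t : Q) (hx : IsUnit x) (hM : IsUnit M) (l : ℕ) (hl : 0 < l)
    (h : x ^ l * M - t ∈ 𝔞) : ∃ y : Q, y - x ∈ 𝔞 ∧ y ^ l * M = t := by
  obtain ⟨n, rfl⟩ : ∃ n, l = n + 1 := ⟨l - 1, by omega⟩
  obtain ⟨M', hM'⟩ := hM.exists_right_inv
  have hlu : IsUnit (((n + 1 : ℕ) : Q) * x ^ n) := by
    refine IsUnit.mul ?_ (hx.pow n)
    have h1 : IsUnit ((n + 1 : ℕ) : ℂ) := (Nat.cast_ne_zero.2 (Nat.succ_ne_zero n)).isUnit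
    have h2 := h1.map (algebraMap ℂ Q)
    rwa [map_natCast] at h2
  obtain ⟨L, hL⟩ := hlu.exists_right_inv
  have hmem : (t * M' - x ^ (n + 1)) * L ∈ 𝔞 := by
    have h1 : (t * M' - x ^ (n + 1)) * L = (x ^ (n + 1) * M - t) * (-(M' * L)) := by
      linear_combination (x ^ (n + 1) * L) * hM'
    rw [h1]
    exact 𝔞.mul_mem_right _ h
  have hsq : ((t * M' - x ^ (n + 1)) * L) * ((t * M' - x ^ (n + 1)) * L) = 0 := by
    have h1 : ((t * M' - x ^ (n + 1)) * L) * ((t * M' - x ^ (n + 1)) * L) ∈ 𝔞 ^ 2 := by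
      rw [pow_two]
      exact Ideal.mul_mem_mul hmem hmem
    rw [h𝔞] at h1
    exact h1
  refine ⟨x + (t * M' - x ^ (n + 1)) * L, ?_, ?_⟩
  · rw [add_sub_cancel_left]
    exact hmem
  · rw [pow_add_sq _ _ hsq]
    linear_combination ((t * M' - x ^ (n + 1)) * M) * hL + t * hM'

theorem stmt_FSG (hLINB : Stmt_LINB) : Stmt_FSG := by
  intro J K B _ _ _ _ _ _ D R _ _ π hsurj hkerπ v e hev hepos
  obtain ⟨h, hh⟩ : ∃ h : R, h = ∏ v', π (MvPolynomial.X v') ^ e v' := ⟨_, rfl⟩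
  rw [← hh]
  have hdvd : ∀ v', v' ≠ v → π (X v') ∣ h := by
    intro v' hv'
    rw [hh]
    exact (dvd_pow_self _ (hepos v' hv').ne').trans (Finset.dvd_prod_of_mem _ (Finset.mem_univ v'))
  refine .of_comp_surjective fun Q _ _ 𝔞 h𝔞 f ↦ ?_
  have hnil : IsNilpotent 𝔞 := ⟨2, h𝔞⟩
  -- the images of the variables in `Q / 𝔞`
  obtain ⟨F, hF⟩ : ∃ F : J ⊕ K → Q ⧸ 𝔞,
    F = fun v' => f (algebraMap R (Localization.Away h) (π (X v'))) := ⟨_, rfl⟩
  have hFu : ∀ v', v' ≠ v → IsUnit (F v') := by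
    intro v' hv'
    have h1 : π (X v') ∣ h := hdvd v' hv'
    have h2 : IsUnit (algebraMap R (Localization.Away h) h) :=
      IsLocalization.map_units (Localization.Away h) (⟨h, Submonoid.mem_powers h⟩ : Submonoid.powers h)
    rw [hF]
    exact (isUnit_of_dvd_unit (map_dvd (algebraMap R (Localization.Away h)) h1) h2).map f
  have hFa : ∀ p : MvPolynomial (J ⊕ K) ℂ,
      f (algebraMap R (Localization.Away h) (π p)) = aeval F p := by
    intro p
    have h1 : (f.comp (Algebra.algHom ℂ R (Localization.Away h))).comp π = aeval F := by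
      apply MvPolynomial.algHom_ext
      intro i
      rw [aeval_X, hF]
      rfl
    exact AlgHom.congr_fun h1 p
  have hmono : ∀ {S : Type} [CommRing S] [Algebra ℂ S] (y : J ⊕ K → S) (b : B),
      aeval y (D.mono K b) = ∏ j with D.bl j = b, y (Sum.inl j) ^ D.l j := by
    intro S _ _ y b
    unfold BData.mono
    rw [map_prod]
    refine Finset.prod_congr rfl fun j _ => ?_
    rw [map_pow, aeval_X]
  have haerel : ∀ {S : Type} [CommRing S] [Algebra ℂ S] (y : J ⊕ K → S) (b₀ b₁ b₂ : B),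
      aeval y (D.rel K b₀ b₁ b₂) =
        algebraMap ℂ S (D.det b₁ b₂) * aeval y (D.mono K b₀) +
        algebraMap ℂ S (D.det b₂ b₀) * aeval y (D.mono K b₁) +
        algebraMap ℂ S (D.det b₀ b₁) * aeval y (D.mono K b₂) := by
    intro S _ _ y b₀ b₁ b₂
    unfold BData.rel
    simp only [map_add, map_mul, aeval_C]
  have hrel : ∀ b₀ b₁ b₂, aeval F (D.rel K b₀ b₁ b₂) = 0 := by
    intro b₀ b₁ b₂
    rw [← hFa]
    have h1 : π (D.rel K b₀ b₁ b₂) = 0 := by
      rw [← RingHom.mem_ker, hkerπ]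
      exact Ideal.subset_span ⟨b₀, b₁, b₂, rfl⟩
    rw [h1, map_zero, map_zero]
  -- lifts
  have hx0 : ∀ v', ∃ x : Q, Ideal.Quotient.mk 𝔞 x = F v' := fun v' => Ideal.Quotient.mk_surjective _
  choose x hx using hx0
  have hxu : ∀ v', v' ≠ v → IsUnit (x v') := by
    intro v' hv'
    rw [← hnil.isUnit_quotient_mk_iff, hx]
    exact hFu v' hv'
  -- the two blocks
  obtain ⟨b₁, hb₁⟩ : ∃ b₁ : B, ∀ j, D.bl j ≠ b₁ → (Sum.inl j : J ⊕ K) ≠ v := by
    have hne : Nonempty B := Fintype.card_pos_iff.1 (lt_of_lt_of_le (by norm_num) D.three)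
    rcases v with j | k
    · refine ⟨D.bl j, fun j' hj' hc => hj' ?_⟩
      rw [Sum.inl_injective hc]
    · exact ⟨hne.some, fun j' _ hc => Sum.inl_ne_inr hc⟩
  obtain ⟨b₂, hb₂⟩ : ∃ b₂ : B, b₂ ≠ b₁ := by
    have : 1 < Fintype.card B := lt_of_lt_of_le (by norm_num) D.three
    exact Fintype.exists_ne_of_one_lt_card this b₁
  obtain ⟨T, hT⟩ : ∃ T : B → Q, T = fun b => aeval x (D.mono K b) := ⟨_, rfl⟩
  obtain ⟨U, hU⟩ : ∃ U : Q, U = (D.det b₁ b₂)⁻¹ • (D.be b₂ • T b₁ - D.be b₁ • T b₂) := ⟨_, rfl⟩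
  obtain ⟨V, hV⟩ : ∃ V : Q, V = (D.det b₁ b₂)⁻¹ • (D.al b₁ • T b₂ - D.al b₂ • T b₁) := ⟨_, rfl⟩
  have hdet : D.det b₁ b₂ ≠ 0 := by
    unfold BData.det
    exact sub_ne_zero.2 (D.indep b₁ b₂ hb₂.symm)
  obtain ⟨t, ht⟩ : ∃ t : B → Q, t = fun b => D.al b • U + D.be b • V := ⟨_, rfl⟩
  have ht1 : t b₁ = T b₁ := by
    rw [ht]
    simp only
    rw [hU, hV, smul_comm (D.al b₁), smul_comm (D.be b₁), ← smul_add, inv_smul_eq_iff₀ hdet]
    unfold BData.det
    simp only [Algebra.smul_def, map_sub, map_mul]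
    ring
  have ht2 : t b₂ = T b₂ := by
    rw [ht]
    simp only
    rw [hU, hV, smul_comm (D.al b₂), smul_comm (D.be b₂), ← smul_add, inv_smul_eq_iff₀ hdet]
    unfold BData.det
    simp only [Algebra.smul_def, map_sub, map_mul]
    ring
  have hmkT : ∀ b, Ideal.Quotient.mk 𝔞 (T b) = aeval F (D.mono K b) := by
    intro b
    rw [hT]
    simp only
    rw [hmono, hmono, map_prod]
    refine Finset.prod_congr rfl fun j _ => ?_
    rw [map_pow, hx]
  have hmkt : ∀ b, Ideal.Quotient.mk 𝔞 (t b) = Ideal.Quotient.mk 𝔞 (T b) := by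
    intro b
    have h1 := hLINB D (M := Q ⧸ 𝔞) (fun b => aeval F (D.mono K b)) b₁ b₂ hb₂.symm (by
      intro b
      have h2 := hrel b b₁ b₂
      rw [haerel] at h2
      simp only [Algebra.smul_def]
      exact h2) b
    rw [hmkT b, h1, ht, ← hmkT, ← hmkT]
    simp only
    rw [hU, hV]
    have hsm : ∀ (c : ℂ) (q : Q), Ideal.Quotient.mk 𝔞 (c • q) = c • Ideal.Quotient.mk 𝔞 q :=
      fun c q => map_smul (Ideal.Quotient.mkₐ ℂ 𝔞) c q
    simp only [map_add, map_sub, hsm]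
  -- the corrected variables
  choose s hs using D.bl_surj
  have hsne : ∀ b, b ≠ b₁ → (Sum.inl (s b) : J ⊕ K) ≠ v := by
    intro b hb
    apply hb₁
    rw [hs]
    exact hb
  have hmem : ∀ b, s b ∈ Finset.univ.filter fun j => D.bl j = b := fun b =>
    Finset.mem_filter.2 ⟨Finset.mem_univ _, hs b⟩
  have hcor : ∀ b, b ≠ b₁ → ∃ y : Q, y - x (Sum.inl (s b)) ∈ 𝔞 ∧
      y ^ D.l (s b) * (∏ j ∈ (Finset.univ.filter fun j => D.bl j = b).erase (s b),
        x (Sum.inl j) ^ D.l j) = t b := by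
    intro b hb
    refine lift_root 𝔞 h𝔞 (x (Sum.inl (s b))) _ (t b) (hxu _ (hsne b hb)) ?_ _ (D.l_pos _) ?_
    · rw [IsUnit.prod_iff]
      intro j hj
      refine (hxu _ (hb₁ j ?_)).pow _
      rw [Finset.mem_erase, Finset.mem_filter] at hj
      rw [hj.2.2]
      exact hb
    · rw [Finset.mul_prod_erase (Finset.univ.filter fun j => D.bl j = b)
        (fun j => x (Sum.inl j) ^ D.l j) (hmem b), ← hmono x b]
      rw [← Ideal.Quotient.eq, hmkt b, hT]
  obtain ⟨c, hc⟩ : ∃ c : B → Q, ∀ b, b ≠ b₁ → c b - x (Sum.inl (s b)) ∈ 𝔞 ∧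
      c b ^ D.l (s b) * (∏ j ∈ (Finset.univ.filter fun j => D.bl j = b).erase (s b),
        x (Sum.inl j) ^ D.l j) = t b := by
    refine ⟨fun b => if hb : b ≠ b₁ then (hcor b hb).choose else 0, fun b hb => ?_⟩
    simp only
    rw [dif_pos hb]
    exact (hcor b hb).choose_spec
  obtain ⟨y, hy⟩ : ∃ y : J ⊕ K → Q, y = Sum.elim
      (fun j => if j = s (D.bl j) ∧ D.bl j ≠ b₁ then c (D.bl j) else x (Sum.inl j))
      (fun k => x (Sum.inr k)) := ⟨_, rfl⟩
  have hyt : ∀ b, aeval y (D.mono K b) = t b := by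
    intro b
    rw [hmono]
    by_cases hb : b = b₁
    · rw [hb, ht1, hT]
      simp only
      rw [hmono]
      refine Finset.prod_congr rfl fun j hj => ?_
      rw [Finset.mem_filter] at hj
      rw [hy]
      simp only [Sum.elim_inl]
      rw [if_neg]
      intro h5
      exact h5.2 hj.2
    · rw [← (hc b hb).2, ← Finset.mul_prod_erase _ _ (hmem b)]
      congr 1
      · rw [hy]
        simp only [Sum.elim_inl, hs]
        rw [if_pos ⟨trivial, hb⟩]
      · refine Finset.prod_congr rfl fun j hj => ?_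
        rw [Finset.mem_erase, Finset.mem_filter] at hj
        rw [hy]
        simp only [Sum.elim_inl]
        rw [if_neg]
        intro h5
        apply hj.1
        rw [h5.1, hj.2.2]
  have hyrel : ∀ b₀ b₁' b₂', aeval y (D.rel K b₀ b₁' b₂') = 0 := by
    intro b₀ b₁' b₂'
    rw [haerel, hyt, hyt, hyt, ht]
    unfold BData.det
    simp only [Algebra.smul_def, map_sub, map_mul]
    ring
  -- the images of `y`
  have hyF : ∀ v', Ideal.Quotient.mk 𝔞 (y v') = F v' := by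
    intro v'
    rw [← hx v', hy]
    rcases v' with j | k
    · simp only [Sum.elim_inl]
      by_cases hj : j = s (D.bl j) ∧ D.bl j ≠ b₁
      · rw [if_pos hj, Ideal.Quotient.eq]
        have h5 := (hc (D.bl j) hj.2).1
        rw [← hj.1] at h5
        exact h5
      · rw [if_neg hj]
    · rfl
  have hyu : ∀ v', v' ≠ v → IsUnit (y v') := by
    intro v' hv'
    rw [← hnil.isUnit_quotient_mk_iff, hyF]
    exact hFu v' hv'
  have hker : RingHom.ker π.toRingHom ≤
      RingHom.ker (aeval y : MvPolynomial (J ⊕ K) ℂ →ₐ[ℂ] Q).toRingHom := by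
    have h1 : RingHom.ker π.toRingHom = RingHom.ker π := rfl
    rw [h1, hkerπ, Ideal.span_le]
    rintro _ ⟨b₀, b₁', b₂', rfl⟩
    exact hyrel b₀ b₁' b₂'
  obtain ⟨g1, hg1⟩ : ∃ g1 : R →ₐ[ℂ] Q, ∀ p, g1 (π p) = aeval y p :=
    ⟨AlgHom.liftOfSurjective π hsurj (aeval y) hker, fun p =>
      AlgHom.liftOfSurjective_apply _ _ _ _ _⟩
  have hg1u : ∀ z : Submonoid.powers h, IsUnit (g1 z) := by
    rintro ⟨_, n, rfl⟩
    simp only [map_pow]
    apply IsUnit.pow
    rw [hh, map_prod, IsUnit.prod_iff]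
    intro v' _
    rw [map_pow, hg1, aeval_X]
    by_cases hv' : v' = v
    · rw [hv', hev, pow_zero]
      exact isUnit_one
    · exact (hyu v' hv').pow _
  refine ⟨IsLocalization.liftAlgHom (M := Submonoid.powers h) (f := g1) hg1u, ?_⟩
  apply IsLocalization.algHom_ext (Submonoid.powers h)
  apply AlgHom.ext
  intro z
  obtain ⟨p, rfl⟩ := hsurj z
  simp only [AlgHom.comp_apply]
  have h5 : (IsLocalization.liftAlgHom (M := Submonoid.powers h) (S := Localization.Away h)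
      (f := g1) hg1u) (algebraMap R (Localization.Away h) (π p)) = g1 (π p) := by
    rw [IsLocalization.coe_liftAlgHom, IsLocalization.lift_eq]
    rfl
  change Ideal.Quotient.mk 𝔞 ((IsLocalization.liftAlgHom (M := Submonoid.powers h)
      (S := Localization.Away h) (f := g1) hg1u) (algebraMap R (Localization.Away h) (π p))) =
    f (algebraMap R (Localization.Away h) (π p))
  rw [h5, hg1, hFa]
  have h6 : ((Ideal.Quotient.mkₐ ℂ 𝔞).comp (aeval y)) = aeval F := by
    apply MvPolynomial.algHom_ext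
    intro k
    rw [AlgHom.comp_apply, aeval_X, aeval_X]
    exact hyF _
  exact AlgHom.congr_fun h6 p

end Pool.C1.helper70
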